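import Pool.Agent.Lib.MP_5e5727_lc.FA.MA

/-!
# MP_5e5727_lc: free associative algebras are not axiomatizable in `L_{∞,ℵ_n}`

For every field `k` and every natural number `n` there are an associative `k`-algebra which is not
free and a set `X` such that the algebra and `k⟨X⟩` satisfy the same sentences of `L_{∞,ℵ_n}`; hence
the class of free associative `k`-algebras is not axiomatizable in `L_{∞,ℵ_n}`.
-/

universe u

open Cardinal

namespace Pool.Agent.Results.MP_5e5727_lc.AllAlephN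

open Pool.Agent.Lib.MP_5e5727_lc

theorem inL_mono {k : Type u} {κ κ' : Cardinal.{u}} (h : κ ≤ κ') :
    {V : Type u} → (φ : Fm k V) → φ.InL κ → φ.InL κ'
  | _, .eq _ _, _ => trivial
  | _, .neg φ, hφ => inL_mono h φ hφ
  | _, .conj _ φ, hφ => fun i => inL_mono h (φ i) (hφ i)
  | _, .all _ φ, hφ => ⟨hφ.1.trans_le h, inL_mono h φ hφ.2⟩

theorem result (k : Type u) [Field k] (n : ℕ) :
    (∃ (A : Type u) (_ : Ring A) (_ : Algebra k A) (X : Type u), ¬ IsFreeAlg k A ∧
      ∀ φ : Fm k PEmpty.{u + 1}, φ.InL (ℵ_ n) →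
        (φ.Sat A PEmpty.elim ↔ φ.Sat (FreeAlgebra k X) PEmpty.elim)) ∧
    ¬ AxiomatizableIn k (ℵ_ n) := by
  refine ⟨?_, FA.main k n⟩
  obtain ⟨A, i1, i2, X, h1, h2⟩ := FA.exists_algebra k n
  refine ⟨A, i1, i2, X, h1, fun φ hφ => h2 φ (inL_mono ?_ φ hφ)⟩
  apply Cardinal.aleph_le_aleph.2
  exact_mod_cast Nat.le_succ n

end Pool.Agent.Results.MP_5e5727_lc.AllAlephN
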