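import Pool.Agent.Lib.MP_5e5727_lc.FA.RED

/-!
# MP_5e5727_lc: reduction to modules over `k[t]`

If the class of free associative `k`-algebras is axiomatizable in `L_{∞,κ}` then every strongly
`κ`-free module over `k[t]` is free.
-/

universe u

open Cardinal Polynomial

namespace Pool.Agent.Results.MP_5e5727_lc.ModuleReduction

open Pool.Agent.Lib.MP_5e5727_lc

/-- `M` is strongly `κ`-free: there is a family of submodules, containing `0`, such that for every
member `P` and every set `X` of fewer than `κ` elements of `M` some member `P'` contains `P` and `X`,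
and `P'` has a basis of fewer than `κ` elements over `P`. -/
def IsStronglyFree (R : Type u) [CommRing R] (M : Type u) [AddCommGroup M] [Module R M]
    (κ : Cardinal.{u}) : Prop :=
  ∃ 𝓕 : Set (Submodule R M), ⊥ ∈ 𝓕 ∧ ∀ P ∈ 𝓕, ∀ X : Set M, #X < κ →
    ∃ P' ∈ 𝓕, P ≤ P' ∧ X ⊆ P' ∧ ∃ (T : Type u) (c : T → M), #T < κ ∧
      P' = P ⊔ Submodule.span R (Set.range c) ∧
      ∀ f : T →₀ R, Finsupp.linearCombination R c f ∈ P → f = 0

theorem result (k : Type u) [Field k] (κ : Cardinal.{u}) (hκ : ℵ₀ ≤ κ)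
    (h : AxiomatizableIn k κ) (M : Type u) [AddCommGroup M] [Module k[X] M]
    (hM : IsStronglyFree k[X] M κ) : Module.Free k[X] M := by
  by_contra hn
  refine FA.not_axiomatizable hκ (M := M) ?_ ?_ h
  · obtain ⟨F, h0, h1⟩ := hM
    refine ⟨F, h0, fun P hP X hX => ?_⟩
    obtain ⟨P', hP', h2, h3, T, c, h4, h5, h6⟩ := h1 P hP X hX
    exact ⟨P', hP', h2, h3, T, c, h4, h5, h6⟩
  · intro B f hf
    obtain ⟨T, ⟨b⟩⟩ := FA.basis_of_injective f hf
    exact hn (Module.Free.of_basis b)

end Pool.Agent.Results.MP_5e5727_lc.ModuleReduction
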